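import Pool.Agent.P.MP_e794d7_al.X.Main

set_option autoImplicit false

namespace Pool.Agent.P.MP_e794d7_al.Old.LargeLabels

open Pool.Agent.P.MP_e794d7_al

theorem result :
    ∀ (r : ℕ) (M : CoxeterMatrix (Fin r)),
      (∀ s t : Fin r, s ≠ t → M s t ≠ 0 → 6 ≤ M s t) →
      ∀ (G : Type) [Group G],
      Nonempty (G ≃* PresentedGroup (Set.range fun p : Fin r × Fin r =>
        ((List.range (M p.1 p.2)).map fun k =>
            if Even k then FreeGroup.of p.1 else FreeGroup.of p.2).prod *
        (((List.range (M p.1 p.2)).map fun k =>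
            if Even k then FreeGroup.of p.2 else FreeGroup.of p.1).prod)⁻¹)) →
      ∀ (A : Type) [AddCommGroup A] [DistribMulAction G A], Finite A →
        ∀ (m : ℕ) (f : (Fin (m + 1) → G) → A),
          (∀ g : Fin (m + 2) → G,
            g 0 • f (fun i => g i.succ) +
              ∑ j : Fin (m + 2), ((-1 : ℤ) ^ ((j : ℕ) + 1)) •
                f (Fin.contractNth j (· * ·) g) = 0) →
          ∃ N : Subgroup G, N.FiniteIndex ∧
            ∃ h : (Fin m → N) → A, ∀ g : Fin (m + 1) → N,
              f (fun i => (g i : G)) =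
                (g 0 : G) • h (fun i => g i.succ) +
                  ∑ j : Fin (m + 1), ((-1 : ℤ) ^ ((j : ℕ) + 1)) •
                    h (Fin.contractNth j (· * ·) g) := by
  intro r M h6 G _ ⟨e⟩ A _ _ hA m f hf
  have h := X.good_big (Fin r) (fun a b => M a b)
    ⟨fun a b => M.symmetric a b, fun a b hab => h6 a b hab.1 hab.2⟩
  exact (h.of_equiv e.symm).inhom A hA m f hf

end Pool.Agent.P.MP_e794d7_al.Old.LargeLabels
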