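import Pool.Agent.P.MP_e794d7_al.Main

set_option autoImplicit false

namespace Pool.Agent.P.MP_e794d7_al.Old.TriangleFree

open Pool.Agent.P.MP_e794d7_al

theorem result :
    ∀ (r : ℕ) (M : CoxeterMatrix (Fin r)),
      (∀ s t u : Fin r, s ≠ t → t ≠ u → s ≠ u → M s t ≠ 0 → M t u ≠ 0 → M s u ≠ 0 →
        M s t = 2) →
      ∀ (G : Type) [Group G],
      Nonempty (G ≃* PresentedGroup (Set.range fun p : Fin r × Fin r =>
        ((List.range (M p.1 p.2)).map fun k =>
            if Even k then FreeGroup.of p.1 else FreeGroup.of p.2).prod *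
        (((List.range (M p.1 p.2)).map fun k =>
            if Even k then FreeGroup.of p.2 else FreeGroup.of p.1).prod)⁻¹)) →
      ∀ (A : Type) [AddCommGroup A] [DistribMulAction G A], Finite A →
        ∀ (m : ℕ) (f : (Fin (m + 1) → G) → A),
          (∀ g : Fin (m + 2) → G,
            g 0 • f (fun i => g i.succ) +
              ∑ j : Fin (m + 2), ((-1 : ℤ) ^ ((j : ℕ) + 1)) •
                f (Fin.contractNth j (· * ·) g) = 0) →
          ∃ N : Subgroup G, N.FiniteIndex ∧
            ∃ h : (Fin m → N) → A, ∀ g : Fin (m + 1) → N,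
              f (fun i => (g i : G)) =
                (g 0 : G) • h (fun i => g i.succ) +
                  ∑ j : Fin (m + 1), ((-1 : ℤ) ^ ((j : ℕ) + 1)) •
                    h (Fin.contractNth j (· * ·) g) := by
  intro r M ht G _ ⟨e⟩ A _ _ hA m f hf
  have h := good_tri _ (Fin r) le_rfl (fun a b => M a b) (fun a b => M.symmetric a b)
    (fun a => M.diagonal a) (fun a b h => M.off_diagonal a b h) ht
  exact (h.of_equiv e.symm).inhom A hA m f hf

end Pool.Agent.P.MP_e794d7_al.Old.TriangleFree
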